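import Pool.Agent.Lib.MP_bcc96c_an.UnbDefs
import Pool.Agent.Lib.MP_bcc96c_an.Mb

set_option maxSynthPendingDepth 3

namespace Pool.Agent.Lib.MP_bcc96c_an.Old.MultiplierBounded

open Pool.Agent.Lib.MP_bcc96c_an

universe u

/-- An approximately amenable Banach algebra with a multiplier-bounded approximate identity has a
bounded approximate identity. -/
theorem result (A : Type u) [NonUnitalNormedRing A] [NormedSpace ℂ A] [IsScalarTower ℂ A A]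
    [SMulCommClass ℂ A A] [CompleteSpace A] (h : AA A)
    (hm : ∃ K : ℝ, ∀ F : Finset A, ∀ ε : ℝ, 0 < ε →
      ∃ e : A, (∀ a : A, ‖e * a‖ ≤ K * ‖a‖ ∧ ‖a * e‖ ≤ K * ‖a‖) ∧
        ∀ a ∈ F, ‖e * a - a‖ < ε ∧ ‖a * e - a‖ < ε) :
    ∃ K : ℝ, ∀ F : Finset A, ∀ ε : ℝ, 0 < ε →
      ∃ e : A, ‖e‖ ≤ K ∧ ∀ a ∈ F, ‖e * a - a‖ < ε ∧ ‖a * e - a‖ < ε :=
  hm.elim fun _ hK =>
    bai_of_mb hK (h (XM A) (LM A) (RM A) ⟨LM_mul, RM_mul, LM_RM⟩ (DM A) DM_mul)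

end Pool.Agent.Lib.MP_bcc96c_an.Old.MultiplierBounded
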