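import Pool.Agent.Lib.MP_bcc96c_an.UnbDefs
import Pool.Agent.Lib.MP_bcc96c_an.WfMain
import Pool.Agent.Lib.MP_bcc96c_an.WfSum

set_option maxSynthPendingDepth 3

namespace Pool.Agent.Lib.MP_bcc96c_an.Old.WeakFactor

open Pool.Agent.Lib.MP_bcc96c_an

universe u

/-- In a commutative approximately amenable Banach algebra every element is an absolutely
convergent sum of products, with a uniform bound. -/
theorem result (A : Type u) [NonUnitalNormedCommRing A] [NormedSpace ℂ A] [IsScalarTower ℂ A A]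
    [SMulCommClass ℂ A A] [CompleteSpace A] (h : AA A) :
    ∃ C : ℝ, ∀ a : A, ∃ b c : ℕ → A, Summable (fun j => ‖b j‖ * ‖c j‖) ∧
      ∑' j, ‖b j‖ * ‖c j‖ ≤ C * ‖a‖ ∧ HasSum (fun j => b j * c j) a :=
  (wf_dual mul_comm (h (XM A) (LM A) (RM A) ⟨LM_mul, RM_mul, LM_RM⟩ (DM A) DM_mul)).elim
    fun _ hC => ⟨_, wf_series hC⟩

end Pool.Agent.Lib.MP_bcc96c_an.Old.WeakFactor
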